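import Mathlib
import Pool.Agent.P.MP_1fa774_co.Finite

namespace Pool.Agent.Results.MP_1fa774_co.Superlinear

/-- `f` is a `(1+ε)`-bi-Lipschitz map between Hamming cubes. -/
def IsBiLip {k N : ℕ} (ε : ℝ) (f : (Fin k → Bool) → (Fin N → Bool)) : Prop :=
  ∃ r : ℝ, 0 < r ∧ ∀ x y,
    r * (hammingDist x y : ℝ) ≤ (hammingDist (f x) (f y) : ℝ) ∧
    (hammingDist (f x) (f y) : ℝ) ≤ (1 + ε) * r * (hammingDist x y : ℝ)

/-- `Emb ε k δ` is the least `N` such that every subset of the `N`-cube of density at least `δ`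
contains the image of a `(1+ε)`-bi-Lipschitz map from the `k`-cube. -/
noncomputable def Emb (ε : ℝ) (k : ℕ) (δ : ℝ) : ℕ :=
  sInf {N : ℕ | ∀ D : Finset (Fin N → Bool), δ * 2 ^ N ≤ (D.card : ℝ) →
    ∃ f : (Fin k → Bool) → (Fin N → Bool), IsBiLip ε f ∧ ∀ x, f x ∈ D}

theorem result (δ ε : ℝ) (hδ0 : 0 < δ) (hδ1 : δ < 1) (hε0 : 0 < ε) (hε1 : ε < 1) :
    ∀ᶠ k : ℕ in Filter.atTop, (k : ℝ) ^ (8 / 7 : ℝ) < (Emb ε k δ : ℝ) := by
  filter_upwards [Pool.Agent.P.MP_1fa774_co.not_good hδ1 hε0 hε1] with k hk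
  by_contra hcon
  have hne : {N : ℕ | ∀ D : Finset (Fin N → Bool), δ * 2 ^ N ≤ (D.card : ℝ) →
      ∃ f : (Fin k → Bool) → (Fin N → Bool), IsBiLip ε f ∧ ∀ x, f x ∈ D}.Nonempty :=
    Pool.Agent.P.MP_1fa774_co.exists_good hδ0 hε0 hε1 k
  have hmem := Nat.sInf_mem hne
  obtain ⟨D, hD, hno⟩ := hk (Emb ε k δ) (not_lt.1 hcon)
  obtain ⟨f, ⟨r, hr, hf⟩, hfD⟩ := hmem D hD
  exact hno f r hr (fun x y => (hf x y).1) (fun x y => (hf x y).2) hfD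

end Pool.Agent.Results.MP_1fa774_co.Superlinear
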